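import Mathlib

set_option autoImplicit false

namespace Pool.Agent.Results.MP_50fe75_gt.AllD

open Set Topology Filter

universe u

/-- specialization order: `x ⊑ y` iff `x ∈ cl {y}`. -/
def SLe {X : Type u} [TopologicalSpace X] (x y : X) : Prop := x ∈ closure ({y} : Set X)

/-- `s` is the supremum of `D` in the specialization order. -/
def IsSup {X : Type u} [TopologicalSpace X] (D : Set X) (s : X) : Prop :=
  (∀ d ∈ D, SLe d s) ∧ ∀ t, (∀ d ∈ D, SLe d t) → SLe s t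

/-- Scott open for the specialization order. -/
def ScottOpen {X : Type u} [TopologicalSpace X] (U : Set X) : Prop :=
  (∀ x y, SLe x y → x ∈ U → y ∈ U) ∧
    ∀ D : Set X, D.Nonempty → DirectedOn SLe D → ∀ s, IsSup D s → s ∈ U → (D ∩ U).Nonempty

/-- monotone convergence space. -/
def DSpace (X : Type u) [TopologicalSpace X] : Prop :=
  T0Space X ∧ (∀ D : Set X, D.Nonempty → DirectedOn SLe D → ∃ s, IsSup D s) ∧
    ∀ U : Set X, IsOpen U → ScottOpen U

/-- Scott space. -/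
def ScottSpace (X : Type u) [TopologicalSpace X] : Prop :=
  T0Space X ∧ (∀ D : Set X, D.Nonempty → DirectedOn SLe D → ∃ s, IsSup D s) ∧
    ∀ U : Set X, IsOpen U ↔ ScottOpen U

/-- d-closed set. -/
def DClosed {X : Type u} [TopologicalSpace X] (A : Set X) : Prop :=
  ∀ D ⊆ A, D.Nonempty → DirectedOn SLe D → ∀ s, IsSup D s → s ∈ A

/-- D-completion. -/
def IsDCompletion {X R : Type u} [TopologicalSpace X] [TopologicalSpace R] (j : X → R) : Prop :=
  DSpace R ∧ IsEmbedding j ∧ ∀ C : Set R, DClosed C → range j ⊆ C → C = univ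

/-- Scott completion. -/
def IsScottCompletion {X R : Type u} [TopologicalSpace X] [TopologicalSpace R] (i : X → R) :
    Prop :=
  ScottSpace R ∧ Continuous i ∧ ∀ (Z : Type u) [TopologicalSpace Z], ScottSpace Z →
    ∀ g : X → Z, Continuous g → ∃! h : R → Z, Continuous h ∧ h ∘ i = g

lemma sle_iff {X : Type u} [TopologicalSpace X] {x y : X} : SLe x y ↔ 𝓝 y ≤ 𝓝 x :=
  specializes_iff_mem_closure.symm

def scott (P : Type u) [PartialOrder P] : TopologicalSpace P where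
  IsOpen U := (∀ x y, x ≤ y → x ∈ U → y ∈ U) ∧
    ∀ D : Set P, D.Nonempty → DirectedOn (· ≤ ·) D → ∀ s, IsLUB D s → s ∈ U → (D ∩ U).Nonempty
  isOpen_univ := ⟨fun _ _ _ _ => trivial, fun D h _ _ _ _ => by simpa using h⟩
  isOpen_inter U V hU hV := by
    refine ⟨fun x y h hx => ⟨hU.1 x y h hx.1, hV.1 x y h hx.2⟩, fun D h1 h2 s h3 h4 => ?_⟩
    obtain ⟨a, ha, ha'⟩ := hU.2 D h1 h2 s h3 h4.1
    obtain ⟨b, hb, hb'⟩ := hV.2 D h1 h2 s h3 h4.2
    obtain ⟨c, hc, h5, h6⟩ := h2 a ha b hb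
    exact ⟨c, hc, hU.1 _ _ h5 ha', hV.1 _ _ h6 hb'⟩
  isOpen_sUnion S hS := by
    refine ⟨?_, ?_⟩
    · rintro x y h ⟨U, hU, hx⟩
      exact ⟨U, hU, (hS U hU).1 x y h hx⟩
    · rintro D h1 h2 s h3 ⟨U, hU, hx⟩
      obtain ⟨a, ha, ha'⟩ := (hS U hU).2 D h1 h2 s h3 hx
      exact ⟨a, ha, U, hU, ha'⟩

lemma scott_sle {P : Type u} [PartialOrder P] : @SLe P (scott P) = (· ≤ ·) := by
  letI := scott P
  funext x y
  refine propext ⟨fun h => ?_, fun h => mem_closure_iff.2 fun U hU hx => ⟨y, hU.1 x y h hx, rfl⟩⟩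
  refine closure_minimal (t := Iic y) (singleton_subset_iff.2 self_mem_Iic)
    ⟨And.intro ?_ ?_⟩ h
  · exact fun a b hab ha hb => ha (hab.trans hb)
  · intro D _ _ s h3 h4
    by_contra hcon
    refine h4 (h3.2 fun d hd => ?_)
    by_contra h5
    exact hcon ⟨d, hd, h5⟩

lemma scott_space {P : Type u} [PartialOrder P]
    (h : ∀ D : Set P, D.Nonempty → DirectedOn (· ≤ ·) D → ∃ s, IsLUB D s) :
    @ScottSpace P (scott P) := by
  letI := scott P
  refine ⟨⟨fun x y h => le_antisymm ?_ ?_⟩, ?_, fun U => ?_⟩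
  · exact (congrFun₂ scott_sle x y).mp (sle_iff.2 h.ge)
  · exact (congrFun₂ scott_sle y x).mp (sle_iff.2 h.le)
  · unfold IsSup; rw [scott_sle]; exact h
  · unfold ScottOpen IsSup; rw [scott_sle]; exact Iff.rfl

section
variable {X R : Type u} [TopologicalSpace X] [TopologicalSpace R] {i : X → R}

lemma sier : @ScottSpace (ULift.{u} Prop) (scott _) :=
  scott_space fun D _ _ => ⟨ULift.up (∃ d ∈ D, d.down), fun d hd h => ⟨d, hd, h⟩,
    fun _ ht ⟨_, hd, h⟩ => ht hd h⟩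

lemma sier_cont {f : X → ULift.{u} Prop} :
    @Continuous _ _ _ (scott _) f ↔ IsOpen {x | (f x).down} := by
  letI := scott (ULift.{u} Prop)
  constructor
  · intro h
    refine IsOpen.preimage h (t := {q | q.down}) ⟨fun x y h hx => h hx, fun D _ _ s h3 h4 => ?_⟩
    by_contra hcon
    exact @h3.2 (ULift.up False) (fun d hd h => hcon ⟨d, hd, h⟩) h4
  · intro h
    refine continuous_def.2 fun W hW => ?_
    by_cases h1 : ULift.up False ∈ W
    · convert isOpen_univ using 1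
      exact eq_univ_of_forall fun x => hW.1 _ _ (fun h => False.elim h) h1
    have key : ∀ x, f x ∈ W → (f x).down := fun x hx => by
      by_contra h2
      exact h1 (hW.1 _ _ (fun h => h2 h) hx)
    by_cases h2 : ULift.up True ∈ W
    · convert h using 1
      ext x
      exact ⟨key x, fun hx => hW.1 _ _ (fun _ => hx) h2⟩
    · convert isOpen_empty using 1
      exact eq_empty_of_forall_notMem fun x hx => h2 (hW.1 _ _ (fun _ => trivial) hx)

lemma ext_open (h : IsScottCompletion i) {U : Set X} (hU : IsOpen U) :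
    ∃! V, IsOpen V ∧ i ⁻¹' V = U := by
  obtain ⟨g, ⟨hg, hg'⟩, hu⟩ := @h.2.2 _ (scott _) sier (fun x => ULift.up (x ∈ U))
    (sier_cont.2 hU)
  refine ⟨{y | (g y).down}, ⟨sier_cont.1 hg, ?_⟩, ?_⟩
  · ext x
    show (g (i x)).down ↔ _
    rw [show g (i x) = ULift.up (x ∈ U) from congrFun hg' x]
  · rintro V ⟨hV, rfl⟩
    rw [← hu (fun y => ULift.up (y ∈ V)) ⟨sier_cont.2 hV, rfl⟩]
    rfl

lemma below (h : IsScottCompletion i) (p : R) : ∃ x, SLe (i x) p := by
  by_contra hcon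
  push Not at hcon
  have h1 := (ext_open h isOpen_univ).unique ⟨isOpen_univ, rfl⟩
    (y₂ := (closure {p})ᶜ) ⟨isClosed_closure.isOpen_compl, eq_univ_of_forall hcon⟩
  exact (h1 ▸ mem_univ p : p ∈ (closure {p})ᶜ) (subset_closure rfl)

end

section
variable {C : Type u} [TopologicalSpace C] [T0Space C]

def PP (C : Type u) [TopologicalSpace C] : Type u := {q : Filter C × C // 𝓝 q.2 ≤ q.1}

instance : PartialOrder (PP C) where
  le q r := r.1.1 ≤ q.1.1 ∧ (q.1.2 = r.1.2 ∨ r.1.1 = 𝓝 r.1.2)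
  le_refl q := ⟨le_rfl, Or.inl rfl⟩
  le_trans q r s h1 h2 := by
    refine ⟨h2.1.trans h1.1, ?_⟩
    rcases h2.2 with h | h
    · rcases h1.2 with h' | h'
      · exact Or.inl (h'.trans h)
      · exact Or.inr (le_antisymm (by rw [← h, ← h']; exact h2.1) s.2)
    · exact Or.inr h
  le_antisymm q r h1 h2 := by
    have h := le_antisymm h2.1 h1.1
    refine Subtype.ext (Prod.ext h ?_)
    rcases h1.2 with h3 | h3
    · exact h3
    rcases h2.2 with h4 | h4
    · exact h4.symm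
    · exact Inseparable.eq (h4.symm.trans (h.trans h3))

def jj (e : C) : PP C := ⟨(𝓝 e, e), le_rfl⟩

lemma jj_le {d e : C} : jj d ≤ jj e ↔ SLe d e :=
  ⟨fun h => sle_iff.2 h.1, fun h => ⟨sle_iff.1 h, Or.inr rfl⟩⟩

lemma jj_up {e : C} {q : PP C} (h : jj e ≤ q) : q = jj q.1.2 := by
  refine Subtype.ext (Prod.ext ?_ rfl)
  rcases h.2 with h1 | h1
  · exact le_antisymm (by rw [← show e = q.1.2 from h1]; exact h.1) q.2
  · exact h1

lemma PP_sup (hC : ∀ D : Set C, D.Nonempty → DirectedOn SLe D → ∃ s, closure D = closure {s})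
    (D : Set (PP C)) (hne : D.Nonempty) (hdir : DirectedOn (· ≤ ·) D) :
    ∃ s, IsLUB D s ∧ ∀ V, IsOpen V → V ∈ s.1.1 → ∃ q ∈ D, V ∈ q.1.1 := by
  by_cases h : ∃ e, jj e ∈ D
  · obtain ⟨e, he⟩ := h
    obtain ⟨s, hs⟩ := hC (jj ⁻¹' D) ⟨e, he⟩ (by
      intro a ha b hb
      obtain ⟨q, hq, h1, h2⟩ := hdir _ ha _ hb
      have h3 := jj_up h1
      rw [h3] at hq h1 h2
      exact ⟨_, hq, jj_le.1 h1, jj_le.1 h2⟩)
    have hs' : s ∈ closure (jj ⁻¹' D) := hs ▸ subset_closure rfl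
    refine ⟨jj s, ⟨fun q hq => ?_, fun t ht => ?_⟩, fun V hV h => ?_⟩
    · obtain ⟨r, hr, h1, h2⟩ := hdir _ he _ hq
      have h3 := jj_up h1
      rw [h3] at hr h2
      exact h2.trans (jj_le.2 (hs ▸ subset_closure hr : r.1.2 ∈ closure {s}))
    · have h3 := jj_up (ht he)
      rw [h3] at ht ⊢
      exact jj_le.2 (closure_minimal (fun d hd => jj_le.1 (ht hd)) isClosed_closure hs')
    · obtain ⟨d, h1, h2⟩ := mem_closure_iff.1 hs' V hV (mem_of_mem_nhds h)
      exact ⟨_, h2, hV.mem_nhds h1⟩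
  · push Not at h
    obtain ⟨q0, hq0⟩ := id hne
    have key : ∀ q ∈ D, q.1.2 = q0.1.2 := by
      intro q hq
      obtain ⟨r, hr, h1, h2⟩ := hdir _ hq _ hq0
      have h3 : r.1.1 ≠ 𝓝 r.1.2 := fun h4 =>
        h r.1.2 ((Subtype.ext (Prod.ext h4 rfl) : r = jj r.1.2) ▸ hr)
      exact (h1.2.resolve_right h3).trans (h2.2.resolve_right h3).symm
    refine ⟨⟨(⨅ q ∈ D, q.1.1, q0.1.2), le_iInf₂ fun q hq => key q hq ▸ q.2⟩,
      ⟨fun q hq => ⟨iInf₂_le q hq, Or.inl (key q hq)⟩,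
        fun t ht => ⟨le_iInf₂ fun q hq => (ht hq).1, (ht hq0).2⟩⟩, fun V _ h => ?_⟩
    refine (mem_biInf_of_directed (f := fun q : PP C => q.1.1) ?_ hne).1 h
    intro a ha b hb
    obtain ⟨c, hc, h1, h2⟩ := hdir a ha b hb
    exact ⟨c, hc, h1.1, h2.1⟩

lemma jj_cont : @Continuous _ _ _ (scott (PP C)) jj := by
  letI := scott (PP C)
  refine continuous_def.2 fun W hW => isOpen_iff_mem_nhds.2 fun e he => ?_
  obtain ⟨_, ⟨U, rfl⟩, h⟩ := hW.2
    (range fun U : (𝓝 e).sets => (⟨(𝓟 U.1, e), le_principal_iff.2 U.2⟩ : PP C))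
    ⟨_, ⟨univ, univ_mem⟩, rfl⟩ (by
      rintro _ ⟨U, rfl⟩ _ ⟨V, rfl⟩
      exact ⟨_, ⟨⟨U.1 ∩ V.1, inter_mem U.2 V.2⟩, rfl⟩,
        ⟨principal_mono.2 inter_subset_left, Or.inl rfl⟩,
        ⟨principal_mono.2 inter_subset_right, Or.inl rfl⟩⟩) (jj e)
    ⟨by rintro _ ⟨U, rfl⟩; exact ⟨le_principal_iff.2 U.2, Or.inl rfl⟩, fun t ht =>
      ⟨fun U hU => le_principal_iff.1 (ht ⟨⟨U, hU⟩, rfl⟩).1, (ht ⟨⟨univ, univ_mem⟩, rfl⟩).2⟩⟩ he
  filter_upwards [eventually_mem_nhds_iff.2 U.2] with d hd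
  exact hW.1 _ _ ⟨le_principal_iff.2 hd, Or.inr rfl⟩ h

lemma hat_open (hC : ∀ D : Set C, D.Nonempty → DirectedOn SLe D → ∃ s, closure D = closure {s})
    {V : Set C} (hV : IsOpen V) : @IsOpen _ (scott (PP C)) {q | V ∈ q.1.1} := by
  refine ⟨fun q r h hq => h.1 hq, fun D h1 h2 s h3 h4 => ?_⟩
  obtain ⟨t, ht, ht'⟩ := PP_sup hC D h1 h2
  rw [h3.unique ht] at h4
  exact ht' V hV h4

end

theorem result (X R : Type u) [TopologicalSpace X] [T0Space X] [TopologicalSpace R] (i : X → R)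
    (h : IsScottCompletion i) : IsDCompletion i := by
  have := h.1.1
  refine ⟨⟨h.1.1, h.1.2.1, fun U hU => (h.1.2.2 U).1 hU⟩, IsInducing.isEmbedding ?_,
    fun C hC hi => eq_univ_of_forall fun p => ?_⟩
  · refine ⟨le_antisymm h.2.1.le_induced fun U hU => ?_⟩
    obtain ⟨V, h1, -⟩ := ext_open h hU
    exact ⟨V, h1⟩
  have hCd : ∀ D : Set C, D.Nonempty → DirectedOn SLe D → ∃ s, closure D = closure {s} := by
    intro D hne hdir
    have hd : DirectedOn SLe (Subtype.val '' D) := by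
      rintro _ ⟨a, ha, rfl⟩ _ ⟨b, hb, rfl⟩
      obtain ⟨c, hc, h1, h2⟩ := hdir a ha b hb
      exact ⟨c, ⟨c, hc, rfl⟩, sle_iff.2 (Specializes.map (sle_iff.1 h1) continuous_subtype_val),
        sle_iff.2 (Specializes.map (sle_iff.1 h2) continuous_subtype_val)⟩
    obtain ⟨s, hs⟩ := h.1.2.1 _ (hne.image _) hd
    refine ⟨⟨s, hC _ (Subtype.coe_image_subset C D) (hne.image _) hd s hs⟩, ?_⟩
    rw [IsEmbedding.subtypeVal.closure_eq_preimage_closure_image,
      IsEmbedding.subtypeVal.closure_eq_preimage_closure_image, image_singleton]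
    congr 1
    refine subset_antisymm (closure_minimal hs.1 isClosed_closure)
      (closure_minimal (singleton_subset_iff.2 ?_) isClosed_closure)
    exact mem_closure_iff.2 fun U hU hs' =>
      inter_comm _ U ▸ ((h.1.2.2 U).1 hU).2 _ (hne.image _) hd s hs hs'
  letI := scott (PP C)
  obtain ⟨g, ⟨hg, hg'⟩, -⟩ := h.2.2 (PP C)
    (scott_space fun D h1 h2 => (PP_sup hCd D h1 h2).imp fun _ h => h.1)
    (fun x => jj ⟨i x, hi ⟨x, rfl⟩⟩) (jj_cont.comp (h.2.1.subtype_mk _))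
  have hgj : ∀ p, g p = jj (g p).1.2 := by
    intro p
    obtain ⟨x, hx⟩ := below h p
    have h1 : SLe (g (i x)) (g p) := sle_iff.2 (Specializes.map (sle_iff.1 hx) hg)
    rw [scott_sle, show g (i x) = jj ⟨i x, hi ⟨x, rfl⟩⟩ from congrFun hg' x] at h1
    exact jj_up h1
  have hr : Continuous fun p => (g p).1.2 := continuous_def.2 fun V hV => by
    convert (hat_open hCd hV).preimage hg using 1
    ext p
    show (g p).1.2 ∈ V ↔ V ∈ (g p).1.1
    rw [← hV.mem_nhds_iff]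
    exact iff_of_eq (congrArg (fun q : PP C => V ∈ q.1.1) (hgj p)).symm
  have h2 := (h.2.2 R h.1 i h.2.1).unique (y₁ := fun p => ((g p).1.2).1) (y₂ := id)
    ⟨continuous_subtype_val.comp hr, funext fun x =>
      congrArg (fun q : PP C => q.1.2.1) (congrFun hg' x)⟩ ⟨continuous_id, rfl⟩
  have h3 : ((g p).1.2).1 = p := congrFun h2 p
  exact h3 ▸ ((g p).1.2).2

end Pool.Agent.Results.MP_50fe75_gt.AllD
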